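import Pool.Agent.H664.FH.Stm

/-!
# Project FH (helper664), JOB EXIT: the level sets of `∑ α_l log ‖p_l‖` leave small neighbourhoods
-/

set_option autoImplicit false

namespace Pool.Agent.H297.FH
open MvPolynomial Filter Topology Metric

theorem finite_zeros_one (g : MvPolynomial (Fin 1) ℂ) (hg : g ≠ 0) :
    {y : ℂ | eval ![y] g = 0}.Finite := by
  set P : Polynomial ℂ := aeval (fun _ : Fin 1 => (Polynomial.X : Polynomial ℂ)) g with hP
  have hev : ∀ y : ℂ, P.eval y = eval ![y] g := by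
    intro y
    have h1 : (Polynomial.evalRingHom y).comp
        (aeval (R := ℂ) (fun _ : Fin 1 => (Polynomial.X : Polynomial ℂ))).toRingHom =
        (eval ![y] : MvPolynomial (Fin 1) ℂ →+* ℂ) := by
      apply MvPolynomial.ringHom_ext
      · intro r; simp
      · intro j; simp
    exact congrArg (fun h : MvPolynomial (Fin 1) ℂ →+* ℂ => h g) h1
  have hP0 : P ≠ 0 := by
    intro h0
    apply hg
    apply MvPolynomial.funext
    intro x
    have : x = ![x 0] := by ext j; fin_cases j; rfl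
    rw [this, ← hev, h0]
    simp
  refine (P.rootSet_finite ℂ).subset ?_
  intro y hy
  rw [Polynomial.mem_rootSet]
  refine ⟨hP0, ?_⟩
  rw [Polynomial.coe_aeval_eq_eval, hev]
  exact hy

theorem cont_eval2 (f : MvPolynomial (Fin 2) ℂ) :
    Continuous (fun v : ℂ × ℂ => eval ![v.1, v.2] f) := by
  have h1 := MvPolynomial.continuous_eval f
  refine h1.comp ?_
  refine continuous_pi (fun j => ?_)
  fin_cases j
  · exact continuous_fst
  · exact continuous_snd

/-- limits of solutions of `f = 0` over `a` -/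
theorem lim_vals (f : MvPolynomial (Fin 2) ℂ) (hf : f ≠ 0) (a : ℂ) :
    ∃ S : Set ℂ, S.Finite ∧ ∀ y : ℂ,
      (a, y) ∈ closure {v : ℂ × ℂ | v.1 ≠ a ∧ eval ![v.1, v.2] f = 0} → y ∈ S := by
  set F := finSuccEquiv ℂ 1 f with hF
  have hF0 : F ≠ 0 := by
    rw [hF]
    simpa using hf
  obtain ⟨q, hq, hnd⟩ := Polynomial.exists_eq_pow_rootMultiplicity_mul_and_not_dvd F hF0 (C a)
  have hqa : q.eval (C a) ≠ 0 := fun h => hnd (Polynomial.dvd_iff_isRoot.mpr h)
  set f' : MvPolynomial (Fin 2) ℂ := (finSuccEquiv ℂ 1).symm q with hf'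
  have hev : ∀ (g : MvPolynomial (Fin 2) ℂ) (x y : ℂ), eval ![x, y] g =
      Polynomial.eval x (Polynomial.map (eval ![y]) (finSuccEquiv ℂ 1 g)) := by
    intro g x y
    exact MvPolynomial.eval_eq_eval_mv_eval' ![y] x g
  have hev' : ∀ x y : ℂ, eval ![x, y] f' = Polynomial.eval x (Polynomial.map (eval ![y]) q) := by
    intro x y
    rw [hev, hf', AlgEquiv.apply_symm_apply]
  refine ⟨{y | eval ![y] (q.eval (C a)) = 0}, finite_zeros_one _ hqa, ?_⟩
  intro y hy
  have hclosed : IsClosed {v : ℂ × ℂ | eval ![v.1, v.2] f' = 0} :=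
    isClosed_eq (cont_eval2 f') continuous_const
  have hsub : {v : ℂ × ℂ | v.1 ≠ a ∧ eval ![v.1, v.2] f = 0} ⊆
      {v : ℂ × ℂ | eval ![v.1, v.2] f' = 0} := by
    rintro ⟨x, y'⟩ ⟨hx, hxy⟩
    simp only [Set.mem_ofPred_eq] at hx hxy ⊢
    rw [hev, ← hF, hq, Polynomial.map_mul, Polynomial.eval_mul, Polynomial.map_pow,
      Polynomial.eval_pow, Polynomial.map_sub, Polynomial.map_X, Polynomial.map_C,
      Polynomial.eval_sub, Polynomial.eval_X, Polynomial.eval_C, eval_C] at hxy
    rw [hev']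
    rcases mul_eq_zero.mp hxy with h | h
    · exact absurd h (pow_ne_zero _ (sub_ne_zero.mpr hx))
    · exact h
  have h1 := closure_minimal hsub hclosed hy
  simp only [Set.mem_ofPred_eq] at h1 ⊢
  rw [hev', Polynomial.eval_map] at h1
  rw [← h1]
  have h2 := Polynomial.hom_eval₂ q (RingHom.id _) (eval ![y]) (C a)
  rw [Polynomial.eval₂_id, RingHom.comp_id, eval_C] at h2
  exact h2

/-- `∑ α_l Log (p_l / s_l)` -/
noncomputable def Phi {n : ℕ} (α : Fin n → ℝ) (s p : Fin n → ℂ) : ℂ :=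
  ∑ l, (α l : ℂ) * Complex.log (p l / s l)

theorem slit_of_near {z : ℂ} {ρ : ℝ} (hρ : ρ < 1 / 2) (h : ‖z - 1‖ ≤ ρ) : z ∈ Complex.slitPlane := by
  have h1 : |(z - 1).re| ≤ ‖z - 1‖ := Complex.abs_re_le_norm _
  have h2 : (z - 1).re = z.re - 1 := by simp
  rw [h2] at h1
  left
  have := abs_le.mp (h1.trans h)
  linarith [this.1]

theorem Phi_re {n : ℕ} (α : Fin n → ℝ) (s p : Fin n → ℂ) (hs : ∀ l, s l ≠ 0) (hp : ∀ l, p l ≠ 0) :
    (Phi α s p).re = ∑ l, α l * Real.log ‖p l‖ - ∑ l, α l * Real.log ‖s l‖ := by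
  unfold Phi
  rw [Complex.re_sum, ← Finset.sum_sub_distrib]
  refine Finset.sum_congr rfl (fun l _ => ?_)
  rw [Complex.re_ofReal_mul, Complex.log_re, norm_div,
    Real.log_div (norm_ne_zero_iff.mpr (hp l)) (norm_ne_zero_iff.mpr (hs l))]
  ring

theorem exit (hcurve : Pool.Agent.H664.FH.S_curve) : Pool.Agent.H664.FH.S_exit := by
  classical
  intro n α i G b hQ hG hb hpair hgood
  choose f hf0 hf using hpair
  have hS : ∀ (a : ℂ) (l : Fin n), ∃ S : Set ℂ, S.Finite ∧ ∀ y : ℂ,
      (a, y) ∈ closure {v : ℂ × ℂ | v.1 ≠ a ∧ eval ![v.1, v.2] (f i l) = 0} → y ∈ S :=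
    fun a l => lim_vals (f i l) (hf0 i l) a
  choose S hSfin hSlim using hS
  refine ⟨⋃ a ∈ b.roots.toFinset, (fun q : Fin n → ℂ => ∑ l, α l * Real.log ‖q l‖) ''
    (Set.pi Set.univ (fun l => S a l)), ?_, ?_⟩
  · refine Set.Finite.biUnion (Finset.finite_toSet _) (fun a _ => ?_)
    exact (Set.Finite.pi (fun l => hSfin a l)).image _
  intro s hsG hbs hlev ρ hρ hρ2
  by_contra hcon
  push Not at hcon
  have hs0 : ∀ l, s l ≠ 0 := (hgood s hsG hbs).1
  set c : ℝ := ∑ l, α l * Real.log ‖s l‖ with hc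
  -- good points of the level in `W` are in the interior
  have hstrict : ∀ p ∈ G, b.eval (p i) ≠ 0 → ∑ l, α l * Real.log ‖p l‖ = c →
      (∀ l, ‖p l / s l - 1‖ ≤ ρ) → ∀ l, ‖p l / s l - 1‖ < ρ := by
    intro p hp hbp hlp hW l
    exact lt_of_le_of_ne (hW l) (hcon p hp hbp hlp hW l)
  set W : Set (Fin n → ℂ) := {p | ∀ l, ‖p l / s l - 1‖ ≤ ρ} with hW
  have hWcl : IsClosed W := by
    have : W = ⋂ l, {p : Fin n → ℂ | ‖p l / s l - 1‖ ≤ ρ} := by
      ext p; simp [hW]
    rw [this]
    refine isClosed_iInter (fun l => isClosed_le ?_ continuous_const)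
    exact (((continuous_apply l).div_const _).sub continuous_const).norm
  have hWcpt : IsCompact W := by
    refine Metric.isCompact_of_isClosed_isBounded hWcl ?_
    refine (Metric.isBounded_closedBall (x := (0 : Fin n → ℂ)) (r := 2 * ‖s‖)).subset ?_
    intro p hp
    rw [mem_closedBall, dist_zero_right]
    refine (pi_norm_le_iff_of_nonneg (by positivity)).mpr (fun l => ?_)
    have h1 : ‖p l / s l‖ ≤ 2 := by
      calc ‖p l / s l‖ = ‖(p l / s l - 1) + 1‖ := by congr 1; ring
        _ ≤ ‖p l / s l - 1‖ + ‖(1 : ℂ)‖ := norm_add_le _ _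
        _ ≤ ρ + 1 := by rw [norm_one]; linarith [hp l]
        _ ≤ 2 := by linarith
    rw [norm_div, div_le_iff₀ (norm_pos_iff.mpr (hs0 l))] at h1
    refine h1.trans ?_
    have := norm_le_pi_norm s l
    linarith
  have hW0 : ∀ p ∈ W, ∀ l, p l ≠ 0 := by
    intro p hp l h0
    have := hp l
    rw [h0, zero_div, zero_sub, norm_neg, norm_one] at this
    linarith
  have hPhiC : ContinuousOn (Phi α s) W := by
    unfold Phi
    refine continuousOn_finsetSum _ (fun l _ => ?_)
    refine continuousOn_const.mul ?_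
    refine ContinuousOn.clog ?_ (fun p hp => slit_of_near hρ2 (hp l))
    exact ((continuous_apply l).div_const _).continuousOn
  set A : Set ℝ := {t | 0 ≤ t ∧ ∃ p ∈ G, p ∈ W ∧ b.eval (p i) ≠ 0 ∧ Phi α s p = t * Complex.I} with hA
  have hsW : s ∈ W := by
    intro l
    rw [div_self (hs0 l), sub_self, norm_zero]; exact hρ.le
  have h0A : (0 : ℝ) ∈ A := by
    refine ⟨le_refl _, s, hsG, hsW, hbs, ?_⟩
    unfold Phi
    rw [Complex.ofReal_zero, zero_mul]
    refine Finset.sum_eq_zero (fun l _ => ?_)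
    rw [div_self (hs0 l), Complex.log_one, mul_zero]
  have hAbdd : BddAbove A := by
    refine ⟨∑ l, |α l| * Real.pi, ?_⟩
    rintro t ⟨ht, p, hp, hpW, hbp, hPhi⟩
    have h1 : (Phi α s p).im = t := by rw [hPhi]; simp
    rw [← h1]
    unfold Phi
    rw [Complex.im_sum]
    refine Finset.sum_le_sum (fun l _ => ?_)
    rw [Complex.im_ofReal_mul]
    calc α l * (Complex.log (p l / s l)).im ≤ |α l * (Complex.log (p l / s l)).im| := le_abs_self _
      _ = |α l| * |(Complex.log (p l / s l)).im| := abs_mul _ _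
      _ ≤ |α l| * Real.pi := by
        gcongr
        rw [Complex.log_im]
        exact Complex.abs_arg_le_pi _
  set ts : ℝ := sSup A with hts
  -- a sequence
  obtain ⟨tm, -, htm_lim, htm_mem⟩ := exists_seq_tendsto_sSup ⟨0, h0A⟩ hAbdd
  choose htm0 pm hpmG hpmW hpmb hpmPhi using htm_mem
  obtain ⟨ps, hpsW, φ, hφ, hps⟩ := hWcpt.tendsto_subseq (fun m => hpmW m)
  have hpsG : ps ∈ G := hG.mem_of_tendsto hps (Eventually.of_forall (fun m => hpmG (φ m)))
  have hPhips : Phi α s ps = ts * Complex.I := by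
    have h1 : Tendsto (fun m => Phi α s (pm (φ m))) atTop (𝓝 (Phi α s ps)) := by
      have := (hPhiC ps hpsW)
      exact this.tendsto.comp (tendsto_nhdsWithin_iff.mpr ⟨hps, Eventually.of_forall (fun m => hpmW _)⟩)
    have h2 : Tendsto (fun m => Phi α s (pm (φ m))) atTop (𝓝 (ts * Complex.I)) := by
      simp only [hpmPhi]
      refine Tendsto.mul_const _ ?_
      exact (Complex.continuous_ofReal.tendsto _).comp (htm_lim.comp hφ.tendsto_atTop)
    exact tendsto_nhds_unique h1 h2
  have hlevps : ∑ l, α l * Real.log ‖ps l‖ = c := by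
    have h1 := Phi_re α s ps hs0 (hW0 ps hpsW)
    rw [hPhips] at h1
    simp at h1
    linarith
  have hts0 : 0 ≤ ts := le_csSup hAbdd h0A
  -- `ps` is good
  have hbps : b.eval (ps i) ≠ 0 := by
    intro hb0
    apply hlev
    rw [Set.mem_iUnion₂]
    refine ⟨ps i, ?_, ps, ?_, hlevps⟩
    · rw [Multiset.mem_toFinset, Polynomial.mem_roots hb]
      exact hb0
    · intro l _
      refine hSlim (ps i) l (ps l) ?_
      rw [mem_closure_iff_seq_limit]
      refine ⟨fun m => (pm (φ m) i, pm (φ m) l), fun m => ⟨?_, ?_⟩, ?_⟩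
      · intro h
        apply hpmb (φ m)
        have h' : pm (φ m) i = ps i := h
        rw [h', hb0]
      · exact hf i l _ (hpmG (φ m))
      · exact ((tendsto_pi_nhds.mp hps i)).prodMk_nhds (tendsto_pi_nhds.mp hps l)
  have hst := hstrict ps hpsG hbps hlevps hpsW
  obtain ⟨hps0, r, g, hr, hgd, hgps, hgz⟩ := hgood ps hpsG hbps
  have hgc : ContinuousAt g (ps i) := (hgd.differentiableAt (ball_mem_nhds _ hr)).continuousAt
  -- near `ps i` the point `g z` is in `W`
  have hev1 : ∀ᶠ z in 𝓝 (ps i), ∀ l, ‖g z l / s l - 1‖ < ρ := by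
    rw [eventually_all]
    intro l
    have h1 : ContinuousAt (fun z => ‖g z l / s l - 1‖) (ps i) := by
      have h2 : ContinuousAt (fun z => g z l) (ps i) := (continuousAt_pi.mp hgc l)
      exact ((h2.div_const _).sub continuousAt_const).norm
    refine h1.eventually_lt continuousAt_const ?_
    simp only [hgps]
    exact hst l
  obtain ⟨r1, hr1, hr1b⟩ := Metric.eventually_nhds_iff_ball.mp hev1
  set r2 : ℝ := min r r1 with hr2
  have hr2pos : 0 < r2 := lt_min hr hr1
  have hb1 : ∀ z ∈ ball (ps i) r2, z ∈ ball (ps i) r ∧ z ∈ ball (ps i) r1 := fun z hz =>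
    ⟨ball_subset_ball (min_le_left _ _) hz, ball_subset_ball (min_le_right _ _) hz⟩
  have hgW : ∀ z ∈ ball (ps i) r2, g z ∈ W := fun z hz l => (hr1b z (hb1 z hz).2 l).le
  have hgG : ∀ z ∈ ball (ps i) r2, g z ∈ G ∧ g z i = z ∧ b.eval z ≠ 0 := fun z hz =>
    hgz z (hb1 z hz).1
  -- the level is not constant on small balls
  have hnc : ∀ r3, 0 < r3 → r3 ≤ r2 → ¬ ∃ c' : ℝ, ∀ z ∈ ball (ps i) r3,
      ∑ l, α l * Real.log ‖g z l‖ = c' := by
    intro r3 hr3 hr32
    have hsub : ∀ z ∈ ball (ps i) r3, z ∈ ball (ps i) r2 := fun z hz => ball_subset_ball hr32 hz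
    refine (hcurve n α (ps i) r3 g hQ hr3 (hgd.mono (fun z hz => (hb1 z (hsub z hz)).1))
      (fun z hz => hW0 _ (hgW z (hsub z hz))) ?_ ?_).1
    · refine ⟨i, ps i + (r3 / 2 : ℝ), ?_, ?_⟩
      · rw [mem_ball, dist_self_add_left, Complex.norm_real, Real.norm_of_nonneg (by positivity)]
        linarith
      · have hz : ps i + (r3 / 2 : ℝ) ∈ ball (ps i) r3 := by
          rw [mem_ball, dist_self_add_left, Complex.norm_real, Real.norm_of_nonneg (by positivity)]
          linarith
        rw [(hgG _ (hsub _ hz)).2.1, (hgG _ (hsub _ (mem_ball_self hr3))).2.1]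
        intro h
        have : ((r3 / 2 : ℝ) : ℂ) = 0 := by simpa using h
        rw [Complex.ofReal_eq_zero] at this
        linarith
    · intro k l
      exact ⟨f k l, hf0 k l, fun z hz => hf k l _ (hgG z (hsub z hz)).1⟩
  -- the holomorphic function
  set h : ℂ → ℂ := fun z => Phi α s (g z) with hh
  have hhd : DifferentiableOn ℂ h (ball (ps i) r2) := by
    intro z hz
    have h1 : DifferentiableAt ℂ g z := hgd.differentiableAt (isOpen_ball.mem_nhds (hb1 z hz).1)
    refine DifferentiableAt.differentiableWithinAt ?_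
    simp only [hh]
    unfold Phi
    refine DifferentiableAt.fun_sum (fun l _ => ?_)
    have h3 : DifferentiableAt ℂ (fun z => g z l / s l) z :=
      (differentiableAt_pi.mp h1 l).div_const _
    exact (h3.clog (slit_of_near hρ2 (hgW z hz l))).const_mul _
  have hhan : AnalyticAt ℂ h (ps i) := hhd.analyticAt (ball_mem_nhds _ hr2pos)
  have hhps : h (ps i) = ts * Complex.I := by
    simp only [hh]; rw [hgps, hPhips]
  rcases hhan.eventually_constant_or_nhds_le_map_nhds with hconst | hopen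
  · obtain ⟨r3, hr3, hr3b⟩ := Metric.eventually_nhds_iff_ball.mp hconst
    refine hnc (min r3 r2) (lt_min hr3 hr2pos) (min_le_right _ _) ⟨c, fun z hz => ?_⟩
    have hz3 : z ∈ ball (ps i) r3 := ball_subset_ball (min_le_left _ _) hz
    have hz2 : z ∈ ball (ps i) r2 := ball_subset_ball (min_le_right _ _) hz
    have h1 : Phi α s (g z) = ts * Complex.I := by
      have := hr3b z hz3
      rw [hhps] at this
      exact this
    have h2 := Phi_re α s (g z) hs0 (hW0 _ (hgW z hz2))
    rw [h1] at h2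
    simp at h2
    linarith
  · have h1 : h '' ball (ps i) r2 ∈ 𝓝 (h (ps i)) :=
      hopen (image_mem_map (ball_mem_nhds _ hr2pos))
    rw [hhps] at h1
    have h2 : Tendsto (fun τ : ℝ => ((ts + τ : ℝ) : ℂ) * Complex.I) (𝓝 0) (𝓝 (ts * Complex.I)) := by
      have : Continuous (fun τ : ℝ => ((ts + τ : ℝ) : ℂ) * Complex.I) := by fun_prop
      have h3 := this.tendsto 0
      simpa using h3
    have h3 := h2.eventually h1
    obtain ⟨τ0, hτ0, hτ0b⟩ := Metric.eventually_nhds_iff_ball.mp h3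
    have h4 := hτ0b (τ0 / 2) (by
      rw [mem_ball, dist_zero_right, Real.norm_of_nonneg (by positivity)]; linarith)
    obtain ⟨z, hz, hzh⟩ := h4
    have h5 : ts + τ0 / 2 ∈ A := by
      refine ⟨by positivity, g z, (hgG z hz).1, hgW z hz, ?_, hzh⟩
      rw [(hgG z hz).2.1]
      exact (hgG z hz).2.2
    have h6 := le_csSup hAbdd h5
    rw [← hts] at h6
    linarith

end Pool.Agent.H297.FH
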